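import Mathlib
import Pool.Agent.P8H62.FD.Cls

/-!
# MP_64dcad_co, Q1: graphs whose fractional domatic number is the minimum degree plus one

For regular graphs `FDOM = δ + 1` iff `dom = δ + 1` (Fujita, Yamashita, Kameda).  Here the question is answered in
terms of fractional colourings for all graphs in which the closed neighbourhood of each vertex contains the
closed neighbourhood of a vertex of degree `δ`; it is shown that for each `δ ≥ 2` the question contains the question
which graphs have fractional chromatic number at most `δ + 1`, and that no bounded multiplicity suffices to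
attain `δ + 1`.

(1) (`Pool/Agent/P8H62/FD/Cls.lean`.)  In a family with `|F| = (δ + 1) m(F)` the members through the vertices of the
closed neighbourhood of a vertex of degree `δ` are a partition of the family into sets of size `m(F)`.

(2) (`Pool/Agent/P8H62/FD/Gad.lean`.)  From `H` delete the edges, join each vertex `x` to all the vertices of a new
`K_δ`, and for each ordered pair of vertices which were adjacent join both to all the vertices of a new
`K_{δ - 1}`.  The new cliques can be used to complete a colouring to a family of dominating sets.

(3) (`Pool/Agent/P8H62/FD/Peak.lean`.)  The triples `(a, b, c)` of different elements of `{0, …, N - 1}`, with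
`(a, b, c)`, `(b, c, d)` adjacent.  For a permutation `σ` the triples with `σ a < σ b > σ c` are independent, and
each triple has this property for a third of the permutations; by Ramsey's theorem there is no
`((δ + 1) m : m)`-colouring with `m ≤ T`, if `N` is large.
-/

set_option autoImplicit false

namespace Pool.Agent.Results.MP_64dcad_co.FractionalColourings

open Pool.Agent.P8H62.FD

/-- (1) Let `G` be a finite graph with the minimum degree `δ` in which the closed neighbourhood of each
vertex contains the closed neighbourhood of a vertex of degree `δ`. Then the fractional domatic number of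
`G` is `δ + 1` iff `sq G δ` has a `((δ + 1) m : m)`-colouring for some `m ≥ 1`, and for each `m` there is a family
of `(δ + 1) m` dominating sets, at most `m` of them through each vertex, iff `sq G δ` has a
`((δ + 1) m : m)`-colouring.

(2) Let `δ ≥ 2`. For all finite graphs `H` with a vertex the graph `gad δ H` has the minimum degree `δ` and the
property in (1); its fractional domatic number is `δ + 1` iff `H` has a `((δ + 1) m : m)`-colouring for some
`m ≥ 1`; for each `m` it has a family of `(δ + 1) m` dominating sets, at most `m` of them through each vertex,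
iff `H` has a `((δ + 1) m : m)`-colouring.

(3) Let `δ ≥ 2`. For each `T` there is an `H` such that the fractional domatic number of `gad δ H` is `δ + 1`, but
`|F| / m(F) < δ + 1` for all nonempty families `F` of dominating sets with `m(F) ≤ T`. -/
theorem result (δ : ℕ) :
    (∀ (V : Type) [Finite V] [Nonempty V] (G : SimpleGraph V), IsMinDeg G δ → IsNested G δ →
      (IsFDOM G (δ + 1) ↔ ∃ m : ℕ, 0 < m ∧ HasCol (sq G δ) ((δ + 1) * m) m) ∧
      ∀ m : ℕ, (∃ F : Fin ((δ + 1) * m) → Set V, (∀ i, IsDom G (F i)) ∧ mult F ≤ m) ↔
        HasCol (sq G δ) ((δ + 1) * m) m) ∧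
    (2 ≤ δ → ∀ (U : Type) [Finite U] [Nonempty U] (H : SimpleGraph U),
      IsMinDeg (gad δ H) δ ∧ IsNested (gad δ H) δ ∧
      (IsFDOM (gad δ H) (δ + 1) ↔ ∃ m : ℕ, 0 < m ∧ HasCol H ((δ + 1) * m) m) ∧
      ∀ m : ℕ, (∃ F : Fin ((δ + 1) * m) → Set (VG δ H), (∀ i, IsDom (gad δ H) (F i)) ∧ mult F ≤ m) ↔
        HasCol H ((δ + 1) * m) m) ∧
    (2 ≤ δ → ∀ T : ℕ, ∃ (U : Type) (_ : Finite U) (_ : Nonempty U) (H : SimpleGraph U),
      IsFDOM (gad δ H) (δ + 1) ∧
      ∀ (r : ℕ) (F : Fin r → Set (VG δ H)), 0 < r → (∀ i, IsDom (gad δ H) (F i)) → mult F ≤ T →
        (r : ℝ) / mult F < δ + 1) :=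
  main3 δ

end Pool.Agent.Results.MP_64dcad_co.FractionalColourings
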