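import Mathlib
import Pool.Agent.P8H62.FD.Cub

/-!
# MP_64dcad_co, Q1: a cubic graph with fractional domatic number 4 and domatic number less than 4

The problem quotes (Fujita, Yamashita, Kameda) that a `δ`-regular graph has `FDOM = δ + 1` iff `dom = δ + 1`.
This is not true: there is a graph on 96 vertices, regular of degree 3, which has 8 perfect codes such that each
vertex is in exactly two of them, so `FDOM = 4`, but no partition into 4 dominating sets.

The graph and a certificate (a tree of case distinctions with 253 nodes) that the vertices cannot be
coloured with 4 colours such that each closed neighbourhood has all the colours are in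
`Pool/Agent/P8H62/FD/Cub.lean`; they were found by a random construction and a computer search.
-/

set_option autoImplicit false

namespace Pool.Agent.Results.MP_64dcad_co.RegularCounterexample

open Pool.Agent.P8H62.FD

/-- There is a graph on 96 vertices in which each vertex has the degree 3, whose fractional domatic number is
4 and which has no 4 pairwise disjoint dominating sets. -/
theorem result : ∃ G : SimpleGraph (Fin 96), (∀ v, (G.neighborSet v).ncard = 3) ∧ IsFDOM G 4 ∧
    ¬ ∃ F : Fin 4 → Set (Fin 96), (∀ i, IsDom G (F i)) ∧ ∀ i j, i ≠ j → Disjoint (F i) (F j) :=
  ⟨Cub.G, Cub.degG, Cub.fdomG, Cub.domG⟩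

end Pool.Agent.Results.MP_64dcad_co.RegularCounterexample
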